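import Pool.Agent.R165.StepIso.D

/-!
# MP_076221_an: step-isometries on dense subsets extend

Let `X` be a real or complex Banach space which is strictly convex and has a separable dual. Every
step-isometry on a dense subset `S` of `X` (countable or not) extends to a step-isometry on `X`.
-/

namespace Pool.Agent.Results.MP_076221_an.StepIsometryExtends

open TopologicalSpace

/-- `T` is a step-isometry on the subset `S` of `X`. -/
def IsStepIsometryOn {X : Type*} [NormedAddCommGroup X] (S : Set X) (T : S → S) : Prop :=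
  Function.Bijective T ∧ ∀ x y : S, ⌊‖(x : X) - (y : X)‖⌋ = ⌊‖(T x : X) - (T y : X)‖⌋

/-- `F` is a step-isometry on the whole of `X`. -/
def IsStepIsometry {X : Type*} [NormedAddCommGroup X] (F : X → X) : Prop :=
  Function.Bijective F ∧ ∀ x y : X, ⌊‖x - y‖⌋ = ⌊‖F x - F y‖⌋

theorem result {𝕜 : Type*} [RCLike 𝕜] {X : Type*} [NormedAddCommGroup X] [NormedSpace 𝕜 X]
    [CompleteSpace X] [SeparableSpace (StrongDual 𝕜 X)]
    (hsc : ∀ x y : X, ‖x‖ = 1 → ‖y‖ = 1 → x ≠ y → ‖(2⁻¹ : 𝕜) • (x + y)‖ < 1)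
    (S : Set X) (hS : Dense S) (T : S → S) (hT : IsStepIsometryOn S T) :
    ∃ F : X → X, IsStepIsometry F ∧ ∀ s : S, F s = T s := by
  letI : NormedSpace ℝ X := NormedSpace.restrictScalars ℝ 𝕜 X
  haveI : IsScalarTower ℝ 𝕜 X := ⟨fun a b x => by
    change (a • b) • x = (algebraMap ℝ 𝕜 a) • (b • x)
    rw [Algebra.smul_def, mul_smul]⟩
  haveI : SeparableSpace (X →L[ℝ] ℝ) :=
    (StrongDual.extendRCLikeₗᵢ (𝕜 := 𝕜) (F := X)).symm.surjective.denseRange.separableSpace
      (StrongDual.extendRCLikeₗᵢ (𝕜 := 𝕜) (F := X)).symm.continuous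
  have hsc' : ∀ x y : X, ‖x‖ = 1 → ‖y‖ = 1 → x ≠ y → ‖(2⁻¹ : ℝ) • (x + y)‖ < 1 := by
    intro x y hx hy hxy
    have h1 := hsc x y hx hy hxy
    rw [norm_smul] at h1 ⊢
    simpa using h1
  have hstep : Pool.Agent.R165.StepIso.StepOn S (Equiv.ofBijective T hT.1) := hT.2
  obtain ⟨F, hF1, hF2, hF3⟩ := Pool.Agent.R165.StepIso.real_main hsc' hS hstep
  exact ⟨F, ⟨hF1, hF2⟩, hF3⟩

end Pool.Agent.Results.MP_076221_an.StepIsometryExtends
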